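import Pool.Agent.Lib.HC.Iface
import Pool.Agent.Lib.HC.B.Wd

/-!
# PROJECT HC, part D (helper81): isolation of a component of an algebraic class

The endomorphisms `n ∈ O_K^ι` of `T` act on `wdg (C.x ∘ s)` by the number
`∏_j τ (g_j (n (i_j)))`, `s j = (i_j, g_j)`. These characters are different for different sets
`{s j}`, so that the components of an algebraic class are algebraic.
-/

set_option autoImplicit false

noncomputable section

namespace HC
namespace D

/-- An integral element with different conjugates. -/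
lemma exists_prim (X : CMF) : ∃ x : X.K, IsIntegral ℤ x ∧ ∀ g h : X.G, g x = h x → g = h := by
  obtain ⟨α, hα⟩ := Field.exists_primitive_element ℚ X.K
  have halg : IsAlgebraic ℤ α :=
    (IsFractionRing.isAlgebraic_iff ℤ ℚ X.K).2 (Algebra.IsAlgebraic.isAlgebraic α)
  obtain ⟨N, hN, hi⟩ := halg.exists_integral_multiple
  refine ⟨N • α, hi, fun g h hgh => ?_⟩
  have h1 : g α = h α := by
    rw [map_zsmul, map_zsmul] at hgh
    rw [zsmul_eq_mul, zsmul_eq_mul] at hgh
    exact mul_left_cancel₀ (by exact_mod_cast hN) hgh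
  have h2 : (g : X.K →ₐ[ℚ] X.K) = (h : X.K →ₐ[ℚ] X.K) :=
    (Field.primitive_element_iff_algHom_eq_of_eval' ℚ X.K (fun x => Normal.splits inferInstance x)
      α).1 hα h1
  exact AlgEquiv.coe_toAlgHom_injective h2

/-- The character of `s`. -/
def chi {X : CMF} {ι : Type} (n : ι → X.K) {m : ℕ} (s : Fin m → ι × X.G) : ℂ :=
  ∏ j, X.τ ((s j).2 (n (s j).1))

/-- Separation of the characters. -/
lemma exists_sep {X : CMF} {ι : Type} {m : ℕ} (s t : Fin m → ι × X.G) (j0 : Fin m)
    (h : ∀ j, t j ≠ s j0) :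
    ∃ n : ι → X.K, (∀ i, IsIntegral ℤ (n i)) ∧ chi n s ≠ chi n t := by
  classical
  by_contra hcon
  push Not at hcon
  obtain ⟨x, hx, hinj⟩ := exists_prim X
  set i0 := (s j0).1 with hi0
  set g0 := (s j0).2 with hg0
  -- the polynomial of `s`
  let P : (Fin m → ι × X.G) → Polynomial ℂ := fun s =>
    ∏ j, if (s j).1 = i0 then Polynomial.X + Polynomial.C (X.τ ((s j).2 x)) else 1
  have hP : ∀ (u : Fin m → ι × X.G) (z : ℂ), (P u).eval z =
      ∏ j, if (u j).1 = i0 then z + X.τ ((u j).2 x) else 1 := by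
    intro u z
    rw [Polynomial.eval_prod]
    refine Finset.prod_congr rfl fun j _ => ?_
    split_ifs <;> simp
  have hk : ∀ (u : Fin m → ι × X.G) (k : ℤ),
      chi (fun i => if i = i0 then (k : X.K) + x else 1) u = (P u).eval (k : ℂ) := by
    intro u k
    rw [hP, chi]
    refine Finset.prod_congr rfl fun j _ => ?_
    by_cases hj : (u j).1 = i0
    · rw [if_pos hj, if_pos hj, map_add, map_add, map_intCast, map_intCast]
    · rw [if_neg hj, if_neg hj, map_one, map_one]
  have heq : P s = P t := by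
    apply Polynomial.eq_of_infinite_eval_eq
    refine Set.Infinite.mono ?_ (Set.infinite_range_of_injective (Int.cast_injective (α := ℂ)))
    rintro _ ⟨k, rfl⟩
    show (P s).eval (k : ℂ) = (P t).eval (k : ℂ)
    rw [← hk, ← hk]
    refine hcon _ fun i => ?_
    by_cases hi : i = i0
    · rw [if_pos hi]
      exact (isIntegral_algebraMap (R := ℤ) (x := k)).add hx
    · rw [if_neg hi]
      exact isIntegral_one
  have h1 : (P s).eval (-X.τ (g0 x)) = 0 := by
    rw [hP]
    refine Finset.prod_eq_zero (Finset.mem_univ j0) ?_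
    rw [if_pos rfl]
    exact neg_add_cancel _
  rw [heq, hP, Finset.prod_eq_zero_iff] at h1
  obtain ⟨j, _, hj⟩ := h1
  by_cases hi : (t j).1 = i0
  · rw [if_pos hi] at hj
    have h2 : X.τ ((t j).2 x) = X.τ (g0 x) := by linear_combination hj
    have h3 := hinj _ _ (X.τ.injective h2)
    exact h j (Prod.ext hi h3)
  · rw [if_neg hi] at hj
    exact one_ne_zero hj

variable {X : CMF} {ι : Type} [Fintype ι] {f : ι → Ty X} {T : AV}

/-- The endomorphism `n`. -/
lemma endo (hom : S_Hom) (C : Crd f T) (n : ι → X.K) (hn : ∀ i, IsIntegral ℤ (n i)) :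
    ∃ φ : T.V →ₗ[ℂ] T.V, (∀ v ∈ T.L, φ v ∈ T.L) ∧
      ∀ s : ι × X.G, pull φ (C.z s) = X.τ (s.2 (n s.1)) • C.z s := by
  classical
  obtain ⟨φ, h1, h2, -⟩ := hom X ι ι ι f f T T C C id id (fun _ => 1) n hn
    (fun a g => by rw [mul_one])
  refine ⟨φ, h1, fun s => ?_⟩
  rw [← Prod.mk.eta (p := s), h2]
  simp

omit [Fintype ι] in
lemma push_z {m : ℕ} (C : Crd f T) (n : ι → X.K) (φ : T.V →ₗ[ℂ] T.V)
    (h : ∀ s : ι × X.G, pull φ (C.z s) = X.τ (s.2 (n s.1)) • C.z s) (c : Hlg T m)
    (s : Fin m → ι × X.G) :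
    push φ c (fun j => C.z (s j)) = chi n s * c (fun j => C.z (s j)) := by
  rw [push_apply]
  have h1 : (fun i => pull φ (C.z (s i))) = fun i => X.τ ((s i).2 (n (s i).1)) • C.z (s i) := by
    funext i; exact h _
  rw [h1]
  exact c.toMultilinearMap.map_smul_univ (fun i => X.τ ((s i).2 (n (s i).1))) fun i => C.z (s i)

/-- Removing components. -/
lemma remove (hom : S_Hom) (C : Crd f T) {m : ℕ} (c : Hlg T m) (hc : Alg T m c)
    (s : Fin m → ι × X.G) (F : Finset (Fin m → ι × X.G))
    (hF : ∀ t ∈ F, ∃ j0, ∀ j, t j ≠ s j0) :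
    ∃ c' : Hlg T m, Alg T m c' ∧ c' (fun j => C.z (s j)) = c (fun j => C.z (s j)) ∧
      ∀ t ∈ F, c' (fun j => C.z (t j)) = 0 := by
  classical
  induction F using Finset.induction_on with
  | empty => exact ⟨c, hc, rfl, fun t ht => absurd ht (Finset.notMem_empty t)⟩
  | insert t F htF ih =>
    obtain ⟨c', h1, h2, h3⟩ := ih fun u hu => hF u (Finset.mem_insert_of_mem hu)
    obtain ⟨j0, hj0⟩ := hF t (Finset.mem_insert_self t F)
    obtain ⟨n, hn, hne⟩ := exists_sep s t j0 hj0
    obtain ⟨φ, hφ, hz⟩ := endo hom C n hn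
    have hne' : chi n s - chi n t ≠ 0 := sub_ne_zero.2 hne
    have hval : ∀ u : Fin m → ι × X.G,
        ((chi n s - chi n t)⁻¹ • (push φ c' - chi n t • c')) (fun j => C.z (u j)) =
          (chi n s - chi n t)⁻¹ * ((chi n u - chi n t) * c' (fun j => C.z (u j))) := by
      intro u
      rw [AlternatingMap.smul_apply, AlternatingMap.sub_apply, AlternatingMap.smul_apply,
        push_z C n φ hz, smul_eq_mul, smul_eq_mul]
      ring
    refine ⟨(chi n s - chi n t)⁻¹ • (push φ c' - chi n t • c'),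
      Alg.smul _ ((Alg.push φ hφ h1).sub (Alg.smul _ h1)), ?_, ?_⟩
    · rw [hval, h2, ← mul_assoc, inv_mul_cancel₀ hne', one_mul]
    · intro u hu
      rw [hval]
      rcases Finset.mem_insert.1 hu with rfl | hu
      · rw [sub_self, zero_mul, mul_zero]
      · rw [h3 u hu, mul_zero, mul_zero]

lemma wdg_eq {m : ℕ} (x : Fin m → ((T.V →ₗ[ℝ] ℂ) →ₗ[ℂ] ℂ)) : wdg x = wd (T := T) x :=
  (wd_eq_alt (T := T) x).symm

end D

/-- Isolation of a component. -/
theorem tD (hz : S_Z) (hom : S_Hom) : S_D := by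
  classical
  intro X ι _ f T C m c hc s hs
  obtain ⟨-, -, -, -, -, b, hb, hbx⟩ := hz X ι f T C
  obtain ⟨c', h1, h2, h3⟩ := D.remove hom C c hc s
    (Finset.univ.filter fun t => ∃ j0, ∀ j, t j ≠ s j0) (fun t ht => (Finset.mem_filter.1 ht).2)
  have hbz : ∀ t : Fin m → ι × X.G, (fun j => b (t j)) = fun j => C.z (t j) :=
    fun t => funext fun j => hb _
  have hsinj : Function.Injective s := by
    intro i j hij
    by_contra hne
    exact hs (c.map_eq_zero_of_eq _ (congrArg C.z hij) hne)
  have hcs : c' = c (fun j => C.z (s j)) • wd (T := T) (fun j => b.coord (s j)) := by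
    refine Module.Basis.ext_alternating b fun t ht => ?_
    rw [AlternatingMap.smul_apply, smul_eq_mul]
    by_cases h4 : ∃ j0, ∀ j, t j ≠ s j0
    · obtain ⟨j0, hj0⟩ := h4
      rw [wd_coord_apply_of_notMem b s t hj0, mul_zero, hbz]
      exact h3 t (Finset.mem_filter.2 ⟨Finset.mem_univ _, j0, hj0⟩)
    · push Not at h4
      choose σ hσ using h4
      have hσinj : Function.Injective σ := by
        intro i j hij
        apply hsinj
        rw [← hσ i, ← hσ j, hij]
      let e : Equiv.Perm (Fin m) := Equiv.ofBijective σ (Finite.injective_iff_bijective.1 hσinj)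
      have hts : t = fun j => s (e.symm j) := by
        funext j
        rw [← hσ (e.symm j)]
        exact congrArg t (e.apply_symm_apply j).symm
      have h5 : ∀ d : Hlg T m, d (fun j => b (t j)) =
          Equiv.Perm.sign e.symm • d (fun j => b (s j)) := by
        intro d
        rw [hts]
        exact d.map_perm (fun j => b (s j)) e.symm
      rw [h5 c', h5 (wd (T := T) (fun j => b.coord (s j))), wd_coord_apply_self b hsinj, hbz, h2]
      rcases Int.units_eq_one_or (Equiv.Perm.sign e.symm) with h | h <;> rw [h] <;> simp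
  have h6 : (fun j => b.coord (s j)) = fun j => C.x (s j) := funext fun j => hbx _
  rw [D.wdg_eq]
  rw [hcs, h6] at h1
  exact Alg.of_smul hs h1

end HC
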